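import Mathlib
import Pool.Agent.M4074.Final

set_option autoImplicit false

namespace Pool.Agent.Results.MP_4074ca_co.ThirdUniform

/-- `T(A) ≤ |A|²/3 + 8|A|` for all finite sets of integers, and for every `n` the interval has
`T ≥ n²/3 - n`; so `M(n) = n²/3 + O(n)`. -/
theorem result :
    (∀ A : Finset ℤ,
      (((A ×ˢ A).filter (fun p => p.1 ≠ p.2 ∧ p.1 + 3 * (p.2 - p.1) ∈ A)).card : ℝ) ≤
        (A.card : ℝ) ^ 2 / 3 + 8 * (A.card : ℝ)) ∧
    (∀ n : ℕ, ∃ A : Finset ℤ, A.card = n ∧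
      (n : ℝ) ^ 2 / 3 - (n : ℝ) ≤
        (((A ×ˢ A).filter (fun p => p.1 ≠ p.2 ∧ p.1 + 3 * (p.2 - p.1) ∈ A)).card : ℝ)) := by
  constructor
  · intro A
    exact Pool.Agent.M4074H.T_bound 8 5 (by norm_num) (by norm_num)
      (Pool.Agent.M4074H.cruxSingle Pool.Agent.M4074R.dprop)
      (Pool.Agent.M4074H.cruxDouble Pool.Agent.M4074R.dprop)
      (Pool.Agent.M4074H.cruxMixed (Pool.Agent.M4074S.R1_of_S4 Pool.Agent.M4074S.s4)) A
  · intro n
    refine ⟨Finset.Ico (0:ℤ) n, by simp, ?_⟩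
    exact Pool.Agent.M4074F.lower n

end Pool.Agent.Results.MP_4074ca_co.ThirdUniform
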