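import Mathlib
import Pool.Prelude.Def_F_d9c4f0db

set_option autoImplicit false

open Ne16c1d3e Ne16c1d3e.Ne9f539be Filter

namespace Pool.Agent.Results.MP_4074ca_co.UpperBoundFiveTwelfths



lemma pieceA (t α q0 q1 X : ℝ) (ht0 : 1/3 ≤ t) (ht : t ≤ 1/2) (hq0 : 0 ≤ q0) (hq1 : 0 ≤ q1)
    (hq : q0 + q1 ≤ 1) (ha1 : α ≤ 1 - t) (h1 : X ≤ 1/3) (h2 : X ≤ q0 * α + q1 * t) :
    X + (q0 + q1)^2/3 ≤ 5/6 * (q0 + q1) := by
  rcases le_total (q0 + q1) (1/2) with h | h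
  · have h3 : q0 * α ≤ q0 * (2/3) := mul_le_mul_of_nonneg_left (by linarith) hq0
    have h4 : q1 * t ≤ q1 * (2/3) := mul_le_mul_of_nonneg_left (by linarith) hq1
    have h5 : (q0+q1)*(q0+q1) ≤ (q0+q1)*(1/2) := mul_le_mul_of_nonneg_left h (by linarith)
    nlinarith
  · nlinarith [mul_nonneg (show (0:ℝ) ≤ 2 - (q0+q1) by linarith) (show (0:ℝ) ≤ 2*(q0+q1) - 1 by linarith)]

lemma pieceXZ (q X : ℝ) (hq : q ≤ 1) (hq2 : 1/2 ≤ q) (h1 : X ≤ 1/3) :
    X + q^2/3 ≤ 5/6 * q := by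
  nlinarith [mul_nonneg (show (0:ℝ) ≤ 2 - q by linarith) (show (0:ℝ) ≤ 2*q - 1 by linarith)]

lemma finB1 (d e w : ℝ) (hd : 0 < d) (he : 0 ≤ e) (h1 : e * w < d * (w - 1/3))
    (h2 : 13 * d + 6 * w - 11 * e < 6) (h3 : w * (d + e) < d^2 + 5/3*d*e) (hw : 0 < w) : False := by
  have hde : 0 < d - e := by
    by_contra hcon
    push Not at hcon
    nlinarith
  have h4 : d / 3 < w * (d - e) := by nlinarith
  have hA : d + e < (3*d + 5*e)*(d - e) := by
    have : d/3 * (d+e) < (d^2+5/3*d*e) * (d - e) := by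
      have e1 : d/3*(d+e) < w*(d-e)*(d+e) := by
        apply mul_lt_mul_of_pos_right h4; linarith
      have e2 : w*(d+e)*(d-e) < (d^2+5/3*d*e)*(d-e) := mul_lt_mul_of_pos_right h3 hde
      nlinarith
    have h5 : d * (d+e) < d * ((3*d+5*e)*(d-e)) := by nlinarith
    exact lt_of_mul_lt_mul_left h5 hd.le
  have hB : (13*d - 11*e)*(d-e) < 4*d - 6*e := by
    have h6 : (13*d+6*w-11*e)*(d-e) < 6*(d-e) := mul_lt_mul_of_pos_right h2 hde
    nlinarith
  have h7 : 0 < 13*d - 11*e := by linarith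
  have h8 : (13*d-11*e)*(d+e) < (13*d-11*e)*((3*d+5*e)*(d-e)) := mul_lt_mul_of_pos_left hA h7
  have h9 : (3*d+5*e)*((13*d-11*e)*(d-e)) < (3*d+5*e)*(4*d-6*e) :=
    mul_lt_mul_of_pos_left hB (by linarith)
  nlinarith [sq_nonneg d, sq_nonneg e]

lemma finB2 (q t : ℝ) (hq2 : 1/2 ≤ q) (hq : q ≤ 1) (ht0 : 0 ≤ t) (h : 3*t ≤ (1-q)*(3-2*q)) :
    3*(1-4*t^2) ≤ q*(11-6*t-8*q) := by
  rcases le_total q (7/10) with hc | hc
  · nlinarith [sq_nonneg (t - q/4), mul_nonneg (show (0:ℝ) ≤ q - 1/2 by linarith) (show (0:ℝ) ≤ 7/10 - q by linarith)]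
  · have h1 : 0 ≤ (1-q)*(4*q^2+2*q-3) := by
      apply mul_nonneg (by linarith); nlinarith
    have h2 : 2*q*(3*t) ≤ 2*q*((1-q)*(3-2*q)) := mul_le_mul_of_nonneg_left h (by linarith)
    nlinarith [sq_nonneg t]


lemma caseB2 (t q0 q1 r0 r1 d e q r V2 : ℝ) (ht0 : 0 ≤ t) (htB : t ≤ 1/3)
    (hq0 : 0 ≤ q0) (hq1 : 0 ≤ q1) (hr0 : 0 ≤ r0) (hr1 : 0 ≤ r1)
    (hd : d = q0 + r0) (he : e = q1 + r1) (hqd : q = q0 + q1) (hrd : r = r0 + r1)
    (hq' : q ≤ 1) (hr' : r ≤ 1/2)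
    (hdu : e * (5/6 - t - q/3) < d * (1/6 - t + q/3))
    (hV2b : V2 ≤ t * (1 - t) + q1*q0 + r1*r0 + (t + e)^2/2)
    (hF2 : 5/6 * ((1 - t) + d) * (t + e) < V2)
    (hqbig : 1/2 ≤ q)
    (h2 : 5/6*(q + r) < 1/3 + q^2/3 + r0*(1-t) + r1*t + r^2/3) : False := by
  have hde : d + e = q + r := by rw [hd, he, hqd, hrd]; ring
  have hd0 : 0 ≤ d := by rw [hd]; linarith
  have he0 : 0 ≤ e := by rw [he]; linarith
  have hr0' : 0 ≤ r := by rw [hrd]; linarith
  have hF2b : 5/6 * ((1 - t) + d) * (t + e) < t * (1 - t) + q1*q0 + r1*r0 + (t + e)^2/2 := by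
    linarith
  have F1b : (2 - q)*(2*q - 1) < r * (1 - 6*t + 2*r) := by
    have h1 : r1 * (t - 5/6) ≤ r1 * (1/6 - t) := mul_le_mul_of_nonneg_left (by linarith) hr1
    have h3 : r0 = r - r1 := by rw [hrd]; ring
    rw [h3] at h2
    nlinarith
  have h3t : 3*t ≤ (1-q)*(3-2*q) := by
    have h1 : 0 ≤ (2 - q)*(2*q - 1) := mul_nonneg (by linarith) (by linarith)
    have h2 : 0 ≤ 1 - 6*t + 2*r := by
      by_contra hneg
      push Not at hneg
      nlinarith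
    have h3 : r * (1 - 6*t + 2*r) ≤ 1/2 * (1 - 6*t + 2*r) := mul_le_mul_of_nonneg_right hr' h2
    nlinarith
  rcases le_total q0 (1 - t) with hq0s | hq0b
  · have hK : t * (1 - t) + q1*q0 + r1*r0 ≤ (t + e) * (1 - t) := by
      have h1 : q1 * q0 ≤ q1 * (1-t) := mul_le_mul_of_nonneg_left hq0s hq1
      have h2 : r1 * r0 ≤ r1 * (1-t) := mul_le_mul_of_nonneg_left (by linarith) hr1
      rw [he]; linarith
    have hte : 0 < t + e := by
      rcases lt_or_eq_of_le (show 0 ≤ t + e by linarith) with h | h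
      · exact h
      · exfalso; rw [← h] at hF2b hK; linarith
    have h5 : 5*d < 1 + 2*t + 3*e := by
      have h1 : (t+e) * (5/6 * ((1 - t) + d)) < (t+e) * ((1-t) + (t+e)/2) := by linarith
      have h2 := lt_of_mul_lt_mul_left h1 hte.le
      linarith
    have h6 : 0 ≤ (11 - 6*t - 8*q)/3 * (d + e - q) :=
      mul_nonneg (by linarith) (by linarith)
    have h7 : 0 < (1 - 2*t) * (1 + 2*t + 3*e - 5*d) := mul_pos (by linarith) (by linarith)
    have h8 := finB2 q t hqbig hq' ht0 h3t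
    linarith
  · have hq23 : 2/3 ≤ q := by rw [hqd]; linarith
    have ht5 : 3*t ≤ 5/9 := by nlinarith
    have hK : t * (1 - t) + q1*q0 + r1*r0 ≤ (t + e) * q0 := by
      have h1 : t * (1 - t) ≤ t * q0 := mul_le_mul_of_nonneg_left hq0b ht0
      have h2 : r1 * r0 ≤ r1 * q0 := mul_le_mul_of_nonneg_left (by linarith) hr1
      rw [he]; linarith
    have hte : 0 < t + e := by
      rcases lt_or_eq_of_le (show 0 ≤ t + e by linarith) with h | h
      · exact h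
      · exfalso; rw [← h] at hF2b hK; linarith
    have h5 : 5/6 * ((1 - t) + d) < q0 + (t+e)/2 := by
      have h1 : (t+e) * (5/6 * ((1 - t) + d)) < (t+e) * (q0 + (t+e)/2) := by linarith
      exact lt_of_mul_lt_mul_left h1 hte.le
    rw [hd, he] at h5
    linarith

lemma caseB1 (t M α q0 q1 r0 r1 d e q r V2 : ℝ) (ht0 : 0 ≤ t) (htB : t ≤ 1/3)
    (hq0 : 0 ≤ q0) (hq1 : 0 ≤ q1) (hr0 : 0 ≤ r0) (hr1 : 0 ≤ r1)
    (hd : d = q0 + r0) (he : e = q1 + r1) (hqd : q = q0 + q1) (hrd : r = r0 + r1)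
    (hrq' : r ≤ q) (hqsmall : q ≤ 1/2)
    (ha2 : t * α ≤ 2 * (t * (1 - t) - M) + t^2/3)
    (hdu : e * (5/6 - t - q/3) < d * (1/6 - t + q/3))
    (hV2a : V2 ≤ M + t * d + q1*q0 + r1*r0 + (t + e)^2/2)
    (hV2b : V2 ≤ t * (1 - t) + q1*q0 + r1*r0 + (t + e)^2/2)
    (hF2 : 5/6 * ((1 - t) + d) * (t + e) < V2)
    (h3 : 5/6 * (d + e) < d * α + e * t + (q^2 + r^2)/3) : False := by
  have hde : d + e = q + r := by rw [hd, he, hqd, hrd]; ring
  have hd0 : 0 ≤ d := by rw [hd]; linarith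
  have he0 : 0 ≤ e := by rw [he]; linarith
  have hr0' : 0 ≤ r := by rw [hrd]; linarith
  have hF2b : 5/6 * ((1 - t) + d) * (t + e) < t * (1 - t) + q1*q0 + r1*r0 + (t + e)^2/2 := by
    linarith
  have hq0s : q0 ≤ 1/2 := by rw [hqd] at hqsmall; linarith
  have hr0s : r0 ≤ 1/2 := by rw [hrd] at hrq'; linarith
  have hK : t * (1 - t) + q1*q0 + r1*r0 ≤ (t + e) * (1 - t) := by
    have h1 : q1 * q0 ≤ q1 * (1-t) := mul_le_mul_of_nonneg_left (by linarith) hq1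
    have h2 : r1 * r0 ≤ r1 * (1-t) := mul_le_mul_of_nonneg_left (by linarith) hr1
    rw [he]; linarith
  have hte : 0 < t + e := by
    rcases lt_or_eq_of_le (show 0 ≤ t + e by linarith) with h | h
    · exact h
    · exfalso; rw [← h] at hF2b hK; linarith
  have h5 : 5*d < 1 + 2*t + 3*e := by
    have h1 : (t+e) * (5/6 * ((1 - t) + d)) < (t+e) * ((1-t) + (t+e)/2) := by linarith
    have h2 := lt_of_mul_lt_mul_left h1 hte.le
    linarith
  obtain ⟨u, hu⟩ : ∃ u, u = 1/6 - t + q/3 := ⟨_, rfl⟩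
  obtain ⟨v, hv⟩ : ∃ v, v = 5/6 - t - q/3 := ⟨_, rfl⟩
  rw [← hu, ← hv] at hdu
  have hv0 : 1/3 ≤ v := by rw [hv]; linarith
  have hev : 0 ≤ e * v := mul_nonneg he0 (by linarith)
  have hd1 : 0 < d := by
    rcases lt_or_eq_of_le hd0 with h | h
    · exact h
    · exfalso; rw [← h] at hdu; linarith
  have hu0 : 0 < u := by
    by_contra hneg
    push Not at hneg
    have := mul_nonneg hd0 (neg_nonneg.mpr hneg)
    linarith
  have huv : 2*u ≤ v := by rw [hu, hv]; linarith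
  have hed : 2*e < d := by
    by_contra hneg
    push Not at hneg
    have h1 : d * u ≤ (2*e) * u := mul_le_mul_of_nonneg_right hneg hu0.le
    have h2 : e * (2*u) ≤ e * v := mul_le_mul_of_nonneg_left huv he0
    linarith
  have hvw : 1/3 + u ≤ v := by rw [hu, hv]; linarith
  have hqde : q ≤ d + e := by linarith
  have hW : d/6 + (t+e)/2 - 5/6*(1-t) < 0 := by linarith
  have hKe : q1*q0 + r1*r0 ≤ e * d := by
    rw [he, hd]; linarith [mul_nonneg hq1 hr0, mul_nonneg hr1 hq0]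
  have hF2a : 5/6 * ((1 - t) + d) * (t + e) < M + t * d + e * d + (t + e)^2/2 := by
    linarith
  have hm : t*(1-t) - M < t * (1/6 + t/3 + d/6 + e/2) + e * (d/6 + (t+e)/2 - 5/6*(1-t)) := by
    linarith
  have hm3 : t*(1-t) - M ≤ t * (1/6 + t/3 + d/6 + e/2) := by
    have := mul_nonneg he0 (neg_nonneg.mpr hW.le)
    linarith
  have htpos : 0 < t := by
    rcases lt_or_eq_of_le ht0 with h | h
    · exact h
    · exfalso
      rw [← h] at hF2b hW hte
      have he1 : 0 < e := by linarith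
      have := mul_pos he1 (neg_pos.mpr hW)
      linarith
  have hF1s : 5/6 * (d + e) < d * (1/3 + t + d/3 + e) + e * t + q*(d+e)/3 := by
    have h1 : r * r ≤ q * r := mul_le_mul_of_nonneg_right hrq' hr0'
    have h2 : q^2 + r^2 ≤ q * (d + e) := by rw [hde]; linarith
    have h4 : t * α ≤ t * (1/3 + t + d/3 + e) := by linarith
    have h5 : α ≤ 1/3 + t + d/3 + e := le_of_mul_le_mul_left h4 htpos
    have h6 : d * α ≤ d * (1/3 + t + d/3 + e) := mul_le_mul_of_nonneg_left h5 hd0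
    linarith
  have ht' : t = 1/6 + q/3 - u := by rw [hu]; ring
  have h13 : 13*d + 6*(1/3+u) - 11*e < 6 := by
    rw [ht'] at h5; linarith
  have hfin : (1/3+u)*(d+e) < d^2 + 5/3*d*e := by
    have h1 : d*(2*q/3 + d/3 + e - 1/3 - u) - e*v > 0 := by
      rw [hv, hu]; linarith
    have h2 : d*(2*q/3) ≤ d*(2*(d+e)/3) := mul_le_mul_of_nonneg_left (by linarith) hd0
    have h3 : e*(1/3+u) ≤ e*v := mul_le_mul_of_nonneg_left hvw he0
    linarith
  have hw1 : e * (1/3+u) < d * ((1/3+u) - 1/3) := by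
    have h3 : e*(1/3+u) ≤ e*v := mul_le_mul_of_nonneg_left hvw he0
    have h4 : d * ((1/3+u) - 1/3) = d * u := by ring
    rw [h4]; linarith
  exact finB1 d e (1/3+u) hd1 he0 hw1 h13 hfin (by linarith)

lemma core1 (t M α q0 q1 r0 r1 XQ XR V2 : ℝ) (ht0 : 0 ≤ t) (ht : t ≤ 1/2)
    (hq0 : 0 ≤ q0) (hq1 : 0 ≤ q1) (hr0 : 0 ≤ r0) (hr1 : 0 ≤ r1)
    (hq : q0 + q1 ≤ 1) (hrq : r0 + r1 ≤ q0 + q1)
    (ha1 : α ≤ 1 - t) (ha2 : t * α ≤ 2 * (t * (1 - t) - M) + t^2/3)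
    (hXQ1 : XQ ≤ 1/3) (hXQ2 : XQ ≤ q0 * α + q1 * t)
    (hXR1 : XR ≤ 1/3) (hXR2 : XR ≤ r0 * α + r1 * t)
    (hV2a : V2 ≤ M + t * (q0 + r0) + q1*q0 + r1*r0 + (t + (q1 + r1))^2/2)
    (hV2b : V2 ≤ t * (1 - t) + q1*q0 + r1*r0 + (t + (q1 + r1))^2/2) :
    XQ + XR + ((q0+q1)^2 + (r0+r1)^2)/3 ≤ 5/6 * ((q0 + q1) + (r0 + r1)) ∨
    V2 ≤ 5/6 * ((1 - t) + (q0 + r0)) * (t + (q1 + r1)) := by
  by_contra hcon
  push Not at hcon
  obtain ⟨F1, F2⟩ := hcon
  have hr : r0 + r1 ≤ 1 := by linarith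
  rcases le_total (1/3) t with htA | htB
  · have a1 := pieceA t α q0 q1 XQ htA ht hq0 hq1 hq ha1 hXQ1 hXQ2
    have a2 := pieceA t α r0 r1 XR htA ht hr0 hr1 hr ha1 hXR1 hXR2
    linarith
  have hXQ : XQ ≤ q0 * (1-t) + q1 * t := by
    have := mul_le_mul_of_nonneg_left ha1 hq0
    linarith
  have hXR : XR ≤ r0 * (1-t) + r1 * t := by
    have := mul_le_mul_of_nonneg_left ha1 hr0
    linarith
  rcases le_total (1/2) (r0 + r1) with hrbig | hrsmall
  · have a1 := pieceXZ (q0+q1) XQ hq (by linarith) hXQ1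
    have a2 := pieceXZ (r0+r1) XR hr hrbig hXR1
    linarith
  have hdu : (q1 + r1) * (5/6 - t - (q0+q1)/3) < (q0 + r0) * (1/6 - t + (q0+q1)/3) := by
    have h1 : (r0+r1) * (r0+r1) ≤ (q0+q1) * (r0+r1) :=
      mul_le_mul_of_nonneg_right hrq (by linarith)
    linarith
  rcases le_total (1/2) (q0+q1) with hqbig | hqsmall
  · exact caseB2 t q0 q1 r0 r1 _ _ _ _ V2 ht0 htB hq0 hq1 hr0 hr1 rfl rfl rfl rfl hq hrsmall
      hdu hV2b F2 hqbig (by linarith)
  · exact caseB1 t M α q0 q1 r0 r1 _ _ _ _ V2 ht0 htB hq0 hq1 hr0 hr1 rfl rfl rfl rfl hrq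
      hqsmall ha2 hdu hV2a hV2b F2 (by linarith)


lemma core0 (g t M α q0 q1 r0 r1 XQ XR V2 : ℝ) (hp : 0 < g + t) (ht0 : 0 ≤ t) (htg : t ≤ g)
    (hq0 : 0 ≤ q0) (hq1 : 0 ≤ q1) (hr0 : 0 ≤ r0) (hr1 : 0 ≤ r1)
    (hq : q0 + q1 ≤ g + t) (hrq : r0 + r1 ≤ q0 + q1)
    (ha1 : α ≤ g) (ha2 : t * α ≤ 2 * (t * g - M) + t^2/3)
    (hXQ1 : XQ ≤ (g+t)^2/3) (hXQ2 : XQ ≤ q0 * α + q1 * t)
    (hXR1 : XR ≤ (g+t)^2/3) (hXR2 : XR ≤ r0 * α + r1 * t)
    (hV2a : V2 ≤ M + t * (q0 + r0) + q1*q0 + r1*r0 + (t + (q1 + r1))^2/2)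
    (hV2b : V2 ≤ t * g + q1*q0 + r1*r0 + (t + (q1 + r1))^2/2) :
    XQ + XR + ((q0+q1)^2 + (r0+r1)^2)/3 ≤ 5/6 * (g + t) * ((q0 + q1) + (r0 + r1)) ∨
    V2 ≤ 5/6 * (g + (q0 + r0)) * (t + (q1 + r1)) := by
  obtain ⟨p, hpd⟩ : ∃ p, p = g + t := ⟨_, rfl⟩
  rw [← hpd] at hp
  have hpne : p ≠ 0 := ne_of_gt hp
  have hp2 : 0 < p^2 := by positivity
  have hg : g = p - t := by rw [hpd]; ring
  obtain ⟨t', ht'⟩ : ∃ t', t = t' * p := ⟨t / p, by field_simp⟩
  obtain ⟨M', hM'⟩ : ∃ M', M = M' * p^2 := ⟨M / p^2, by field_simp⟩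
  obtain ⟨α', hα'⟩ : ∃ α', α = α' * p := ⟨α / p, by field_simp⟩
  obtain ⟨q0', hq0'⟩ : ∃ q0', q0 = q0' * p := ⟨q0 / p, by field_simp⟩
  obtain ⟨q1', hq1'⟩ : ∃ q1', q1 = q1' * p := ⟨q1 / p, by field_simp⟩
  obtain ⟨r0', hr0'⟩ : ∃ r0', r0 = r0' * p := ⟨r0 / p, by field_simp⟩
  obtain ⟨r1', hr1'⟩ : ∃ r1', r1 = r1' * p := ⟨r1 / p, by field_simp⟩
  obtain ⟨XQ', hXQ'⟩ : ∃ XQ', XQ = XQ' * p^2 := ⟨XQ / p^2, by field_simp⟩
  obtain ⟨XR', hXR'⟩ : ∃ XR', XR = XR' * p^2 := ⟨XR / p^2, by field_simp⟩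
  obtain ⟨V2', hV2'⟩ : ∃ V2', V2 = V2' * p^2 := ⟨V2 / p^2, by field_simp⟩
  subst hg ht' hM' hα' hq0' hq1' hr0' hr1' hXQ' hXR' hV2'
  have s1 : ∀ a b : ℝ, a * p ≤ b * p → a ≤ b := fun a b h => le_of_mul_le_mul_right h hp
  have s2 : ∀ a b : ℝ, a * p^2 ≤ b * p^2 → a ≤ b := fun a b h => le_of_mul_le_mul_right h hp2
  have key := core1 t' M' α' q0' q1' r0' r1' XQ' XR' V2'
    (s1 _ _ (by linarith)) (s1 _ _ (by linarith)) (s1 _ _ (by linarith)) (s1 _ _ (by linarith))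
    (s1 _ _ (by linarith)) (s1 _ _ (by linarith)) (s1 _ _ (by linarith)) (s1 _ _ (by linarith))
    (s1 _ _ (by linarith)) (s2 _ _ (by linarith)) (s2 _ _ (by linarith)) (s2 _ _ (by linarith))
    (s2 _ _ (by linarith)) (s2 _ _ (by linarith)) (s2 _ _ (by linarith)) (s2 _ _ (by linarith))
  rcases key with h | h
  · left
    have := mul_le_mul_of_nonneg_right h hp2.le
    linarith
  · right
    have := mul_le_mul_of_nonneg_right h hp2.le
    linarith

lemma core (g t M α q0 q1 r0 r1 XQ XR V2 : ℝ) (hp : 0 < g + t) (ht0 : 0 ≤ t) (htg : t ≤ g)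
    (hq0 : 0 ≤ q0) (hq1 : 0 ≤ q1) (hr0 : 0 ≤ r0) (hr1 : 0 ≤ r1)
    (hq : q0 + q1 ≤ g + t) (hr : r0 + r1 ≤ g + t)
    (ha1 : α ≤ g) (ha2 : t * α ≤ 2 * (t * g - M) + t^2/3)
    (hXQ1 : XQ ≤ (g+t)^2/3) (hXQ2 : XQ ≤ q0 * α + q1 * t)
    (hXR1 : XR ≤ (g+t)^2/3) (hXR2 : XR ≤ r0 * α + r1 * t)
    (hV2a : V2 ≤ M + t * (q0 + r0) + q1*q0 + r1*r0 + (t + (q1 + r1))^2/2)
    (hV2b : V2 ≤ t * g + q1*q0 + r1*r0 + (t + (q1 + r1))^2/2) :
    XQ + XR + ((q0+q1)^2 + (r0+r1)^2)/3 ≤ 5/6 * (g + t) * ((q0 + q1) + (r0 + r1)) ∨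
    V2 ≤ 5/6 * (g + (q0 + r0)) * (t + (q1 + r1)) := by
  rcases le_total (r0 + r1) (q0 + q1) with h | h
  · exact core0 g t M α q0 q1 r0 r1 XQ XR V2 hp ht0 htg hq0 hq1 hr0 hr1 hq h ha1 ha2
      hXQ1 hXQ2 hXR1 hXR2 hV2a hV2b
  · have := core0 g t M α r0 r1 q0 q1 XR XQ V2 hp ht0 htg hr0 hr1 hq0 hq1 hr h ha1 ha2
      hXR1 hXR2 hXQ1 hXQ2 (by linarith) (by linarith)
    rcases this with h1 | h1
    · left; linarith
    · right; linarith

lemma al_bound1 (g0 g1 g2 t0 t1 t2 : ℝ) (ht0 : 0 ≤ t0) (ht1 : 0 ≤ t1) (ht2 : 0 ≤ t2)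
    (hg0 : 0 ≤ g0) (hg1 : 0 ≤ g1) (hg2 : 0 ≤ g2) :
    (t0 + t1 + t2) * (min (g0+t0) g1 + min (g1+t1) g2 + min (g2+t2) g0) ≤
      2 * ((t0+t1+t2)*(g0+g1+g2) - (t0*g0+t1*g1+t2*g2)) + (t0+t1+t2)^2/3 := by
  have a0 : t0 * (min (g0+t0) g1 + min (g1+t1) g2 + min (g2+t2) g0) ≤ t0 * (g1 + g2 + (g2+t2)) :=
    mul_le_mul_of_nonneg_left (by linarith [min_le_right (g0+t0) g1, min_le_right (g1+t1) g2, min_le_left (g2+t2) g0]) ht0
  have a1 : t1 * (min (g0+t0) g1 + min (g1+t1) g2 + min (g2+t2) g0) ≤ t1 * ((g0+t0) + g2 + g0) :=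
    mul_le_mul_of_nonneg_left (by linarith [min_le_left (g0+t0) g1, min_le_right (g1+t1) g2, min_le_right (g2+t2) g0]) ht1
  have a2 : t2 * (min (g0+t0) g1 + min (g1+t1) g2 + min (g2+t2) g0) ≤ t2 * (g1 + (g1+t1) + g0) :=
    mul_le_mul_of_nonneg_left (by linarith [min_le_right (g0+t0) g1, min_le_left (g1+t1) g2, min_le_right (g2+t2) g0]) ht2
  nlinarith [mul_nonneg ht0 hg1, mul_nonneg ht1 hg2, mul_nonneg ht2 hg0, mul_nonneg ht0 hg2,
    mul_nonneg ht1 hg0, mul_nonneg ht2 hg1, sq_nonneg (t0-t1), sq_nonneg (t1-t2), sq_nonneg (t0-t2)]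

lemma al_bound2 (g0 g1 g2 t0 t1 t2 : ℝ) (ht0 : 0 ≤ t0) (ht1 : 0 ≤ t1) (ht2 : 0 ≤ t2)
    (hg0 : 0 ≤ g0) (hg1 : 0 ≤ g1) (hg2 : 0 ≤ g2) :
    (t0 + t1 + t2) * (min (g0+t0) g2 + min (g1+t1) g0 + min (g2+t2) g1) ≤
      2 * ((t0+t1+t2)*(g0+g1+g2) - (t0*g0+t1*g1+t2*g2)) + (t0+t1+t2)^2/3 := by
  have := al_bound1 g0 g2 g1 t0 t2 t1 ht0 ht2 ht1 hg0 hg2 hg1
  have e : min (g0+t0) g2 + min (g1+t1) g0 + min (g2+t2) g1 =
      min (g0+t0) g2 + min (g2+t2) g1 + min (g1+t1) g0 := by ring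
  rw [e]
  linarith

lemma cyc3 (a b c : ℝ) : a*b + b*c + c*a ≤ (a+b+c)^2/3 := by
  nlinarith [sq_nonneg (a-b), sq_nonneg (b-c), sq_nonneg (a-c)]



/-- number of ordered pairs `(x, y)` of distinct elements of `A` with `x + 3 (y - x) ∈ A` -/
def T (A : Finset ℤ) : ℕ :=
  ((A ×ˢ A).filter (fun p => p.1 ≠ p.2 ∧ p.1 + 3 * (p.2 - p.1) ∈ A)).card

def N (X Y Z : Finset ℤ) : ℕ :=
  ((X ×ˢ Y).filter (fun p => p.1 + 3 * (p.2 - p.1) ∈ Z)).card

lemma N_eq_sum_x (X Y Z : Finset ℤ) :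
    N X Y Z = ∑ x ∈ X, (Y.filter (fun y => x + 3 * (y - x) ∈ Z)).card := by
  unfold N
  rw [Finset.card_filter, Finset.sum_product]
  refine Finset.sum_congr rfl fun x _ => ?_
  rw [Finset.card_filter]

lemma N_eq_sum_y (X Y Z : Finset ℤ) :
    N X Y Z = ∑ y ∈ Y, (X.filter (fun x => x + 3 * (y - x) ∈ Z)).card := by
  unfold N
  rw [Finset.card_filter, Finset.sum_product_right]
  refine Finset.sum_congr rfl fun x _ => ?_
  rw [Finset.card_filter]

lemma fib_x_le (Y Z : Finset ℤ) (x : ℤ) :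
    (Y.filter (fun y => x + 3 * (y - x) ∈ Z)).card ≤ Z.card := by
  apply Finset.card_le_card_of_injOn (fun y => x + 3 * (y - x))
  · intro y hy
    simp only [Finset.coe_filter, Set.mem_ofPred_eq] at hy
    exact hy.2
  · intro a _ b _ h
    simp only at h
    omega

lemma fib_y_le (X Z : Finset ℤ) (y : ℤ) :
    (X.filter (fun x => x + 3 * (y - x) ∈ Z)).card ≤ Z.card := by
  apply Finset.card_le_card_of_injOn (fun x => x + 3 * (y - x))
  · intro x hx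
    simp only [Finset.coe_filter, Set.mem_ofPred_eq] at hx
    exact hx.2
  · intro a _ b _ h
    simp only at h
    omega

/-- cells -/
def c3 (A : Finset ℤ) (k : ℤ) : Finset ℤ := A.filter (fun x => x % 3 = k)
def c9 (A : Finset ℤ) (k : ℤ) : Finset ℤ := A.filter (fun x => x % 9 = k)
def c2 (A : Finset ℤ) (k : ℤ) : Finset ℤ := A.filter (fun x => x % 2 = k)

lemma T_split3 (A : Finset ℤ) :
    T A ≤ T (c3 A 0) + T (A.filter (fun x => x % 3 ≠ 0)) + N (c3 A 0) (c3 A 1) (c3 A 0)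
      + N (c3 A 0) (c3 A 2) (c3 A 0) + N (c3 A 1) (c3 A 0) (c3 A 1)
      + N (c3 A 2) (c3 A 0) (c3 A 2) := by
  unfold T N
  refine le_trans (Finset.card_le_card (t := ((((
    ((c3 A 0 ×ˢ c3 A 0).filter (fun p => p.1 ≠ p.2 ∧ p.1 + 3 * (p.2 - p.1) ∈ c3 A 0))
    ∪ (((A.filter (fun x => x % 3 ≠ 0)) ×ˢ (A.filter (fun x => x % 3 ≠ 0))).filter
        (fun p => p.1 ≠ p.2 ∧ p.1 + 3 * (p.2 - p.1) ∈ A.filter (fun x => x % 3 ≠ 0))))
    ∪ ((c3 A 0 ×ˢ c3 A 1).filter (fun p => p.1 + 3 * (p.2 - p.1) ∈ c3 A 0)))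
    ∪ ((c3 A 0 ×ˢ c3 A 2).filter (fun p => p.1 + 3 * (p.2 - p.1) ∈ c3 A 0)))
    ∪ ((c3 A 1 ×ˢ c3 A 0).filter (fun p => p.1 + 3 * (p.2 - p.1) ∈ c3 A 1)))
    ∪ ((c3 A 2 ×ˢ c3 A 0).filter (fun p => p.1 + 3 * (p.2 - p.1) ∈ c3 A 2))) ?_) ?_
  · rintro ⟨x, y⟩ h
    simp only [Finset.mem_filter, Finset.mem_product, Finset.mem_union, c3] at h ⊢
    obtain ⟨⟨hx, hy⟩, hne, hz⟩ := h
    simp only [hx, hy, hz, true_and]
    omega
  · refine le_trans (Finset.card_union_le _ _) (Nat.add_le_add_right ?_ _)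
    refine le_trans (Finset.card_union_le _ _) (Nat.add_le_add_right ?_ _)
    refine le_trans (Finset.card_union_le _ _) (Nat.add_le_add_right ?_ _)
    refine le_trans (Finset.card_union_le _ _) (Nat.add_le_add_right ?_ _)
    exact Finset.card_union_le _ _

lemma T_split2 (A : Finset ℤ) :
    T A ≤ T (c2 A 0) + T (c2 A 1) + N (c2 A 1) (c2 A 0) (c2 A 0)
      + N (c2 A 0) (c2 A 1) (c2 A 1) := by
  unfold T N
  refine le_trans (Finset.card_le_card (t := ((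
    ((c2 A 0 ×ˢ c2 A 0).filter (fun p => p.1 ≠ p.2 ∧ p.1 + 3 * (p.2 - p.1) ∈ c2 A 0))
    ∪ ((c2 A 1 ×ˢ c2 A 1).filter (fun p => p.1 ≠ p.2 ∧ p.1 + 3 * (p.2 - p.1) ∈ c2 A 1)))
    ∪ ((c2 A 1 ×ˢ c2 A 0).filter (fun p => p.1 + 3 * (p.2 - p.1) ∈ c2 A 0)))
    ∪ ((c2 A 0 ×ˢ c2 A 1).filter (fun p => p.1 + 3 * (p.2 - p.1) ∈ c2 A 1))) ?_) ?_
  · rintro ⟨x, y⟩ h
    simp only [Finset.mem_filter, Finset.mem_product, Finset.mem_union, c2] at h ⊢
    obtain ⟨⟨hx, hy⟩, hne, hz⟩ := h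
    simp only [hx, hy, hz, true_and]
    omega
  · refine le_trans (Finset.card_union_le _ _) (Nat.add_le_add_right ?_ _)
    refine le_trans (Finset.card_union_le _ _) (Nat.add_le_add_right ?_ _)
    exact Finset.card_union_le _ _


def cE (A : Finset ℤ) (k : ℤ) : Finset ℤ := A.filter (fun x => x % 9 = k ∧ x % 2 = 0)
def cO (A : Finset ℤ) (k : ℤ) : Finset ℤ := A.filter (fun x => x % 9 = k ∧ x % 2 = 1)
def eE (A : Finset ℤ) (k : ℤ) : Finset ℤ := A.filter (fun x => x % 3 = k ∧ x % 2 = 0)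
def eO (A : Finset ℤ) (k : ℤ) : Finset ℤ := A.filter (fun x => x % 3 = k ∧ x % 2 = 1)
def c4 (A : Finset ℤ) (k : ℤ) : Finset ℤ := A.filter (fun x => x % 4 = k)

lemma sum_c3 (A : Finset ℤ) (f : ℤ → ℕ) (k : ℤ) (hk : k = 0 ∨ k = 1 ∨ k = 2) :
    ∑ x ∈ c3 A k, f x = ∑ x ∈ c9 A k, f x + ∑ x ∈ c9 A (k+3), f x + ∑ x ∈ c9 A (k+6), f x := by
  simp only [c3, c9, Finset.sum_filter, ← Finset.sum_add_distrib]
  refine Finset.sum_congr rfl fun x _ => ?_
  split_ifs <;> omega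

lemma sum_c3_par (A : Finset ℤ) (f : ℤ → ℕ) (k : ℤ) :
    ∑ x ∈ c3 A k, f x = ∑ x ∈ eE A k, f x + ∑ x ∈ eO A k, f x := by
  simp only [c3, eE, eO, Finset.sum_filter, ← Finset.sum_add_distrib]
  refine Finset.sum_congr rfl fun x _ => ?_
  split_ifs <;> omega

lemma sum_c2_odd (A : Finset ℤ) (f : ℤ → ℕ) :
    ∑ x ∈ c2 A 1, f x = ∑ x ∈ cO A 0, f x + ∑ x ∈ cO A 3, f x + ∑ x ∈ cO A 6, f x
      + ∑ x ∈ eO A 1, f x + ∑ x ∈ eO A 2, f x := by
  simp only [c2, cO, eO, Finset.sum_filter, ← Finset.sum_add_distrib]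
  refine Finset.sum_congr rfl fun x _ => ?_
  split_ifs <;> omega

lemma sum_c2_odd' (A : Finset ℤ) (f : ℤ → ℕ) :
    ∑ x ∈ c2 A 1, f x = ∑ x ∈ eO A 0, f x + ∑ x ∈ eO A 1, f x + ∑ x ∈ eO A 2, f x := by
  simp only [c2, eO, Finset.sum_filter, ← Finset.sum_add_distrib]
  refine Finset.sum_congr rfl fun x _ => ?_
  split_ifs <;> omega

lemma sum_c2_four (A : Finset ℤ) (f : ℤ → ℕ) :
    ∑ x ∈ c2 A 1, f x = ∑ x ∈ c4 A 1, f x + ∑ x ∈ c4 A 3, f x := by
  simp only [c2, c4, Finset.sum_filter, ← Finset.sum_add_distrib]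
  refine Finset.sum_congr rfl fun x _ => ?_
  split_ifs <;> omega

lemma sum_le_card_mul (X : Finset ℤ) (f : ℤ → ℕ) (m : ℕ) (h : ∀ x ∈ X, f x ≤ m) :
    ∑ x ∈ X, f x ≤ X.card * m := by
  have := Finset.sum_le_card_nsmul X f m h
  simpa using this

/-- `x`-fibre bound through a set `W` containing all possible `z` -/
lemma fib_x_sub (Y Z W : Finset ℤ) (x : ℤ)
    (h : ∀ y ∈ Y, x + 3 * (y - x) ∈ Z → x + 3 * (y - x) ∈ W) :
    (Y.filter (fun y => x + 3 * (y - x) ∈ Z)).card ≤ W.card := by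
  refine le_trans (Finset.card_le_card ?_) (fib_x_le Y W x)
  intro y hy
  simp only [Finset.mem_filter] at hy ⊢
  exact ⟨hy.1, h y hy.1 hy.2⟩

lemma fib_y_sub (X Z W : Finset ℤ) (y : ℤ)
    (h : ∀ x ∈ X, x + 3 * (y - x) ∈ Z → x + 3 * (y - x) ∈ W) :
    (X.filter (fun x => x + 3 * (y - x) ∈ Z)).card ≤ W.card := by
  refine le_trans (Finset.card_le_card ?_) (fib_y_le X W y)
  intro x hx
  simp only [Finset.mem_filter] at hx ⊢
  exact ⟨hx.1, h x hx.1 hx.2⟩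

/-- product bounds `N (P, Q, P)` for classes mod 3, target determined mod 9 -/
lemma N_xz (A : Finset ℤ) (i k a b c : ℤ) (hi : i = 0 ∨ i = 1 ∨ i = 2)
    (ha : ∀ x y : ℤ, x % 9 = i → y % 3 = k → (x + 3 * (y - x)) % 9 = a)
    (hb : ∀ x y : ℤ, x % 9 = i + 3 → y % 3 = k → (x + 3 * (y - x)) % 9 = b)
    (hc : ∀ x y : ℤ, x % 9 = i + 6 → y % 3 = k → (x + 3 * (y - x)) % 9 = c) :
    N (c3 A i) (c3 A k) (c3 A i) ≤ (c9 A i).card * (c9 A a).card
      + (c9 A (i+3)).card * (c9 A b).card + (c9 A (i+6)).card * (c9 A c).card := by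
  rw [N_eq_sum_x, sum_c3 A _ i hi]
  refine add_le_add (add_le_add ?_ ?_) ?_
  · refine sum_le_card_mul _ _ _ fun x hx => fib_x_sub _ _ _ _ fun y hy hz => ?_
    simp only [c3, c9, Finset.mem_filter] at hx hy hz ⊢
    exact ⟨hz.1, ha x y hx.2 hy.2⟩
  · refine sum_le_card_mul _ _ _ fun x hx => fib_x_sub _ _ _ _ fun y hy hz => ?_
    simp only [c3, c9, Finset.mem_filter] at hx hy hz ⊢
    exact ⟨hz.1, hb x y hx.2 hy.2⟩
  · refine sum_le_card_mul _ _ _ fun x hx => fib_x_sub _ _ _ _ fun y hy hz => ?_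
    simp only [c3, c9, Finset.mem_filter] at hx hy hz ⊢
    exact ⟨hz.1, hc x y hx.2 hy.2⟩

/-- per `y` bound with a shift -/
lemma N_al (A : Finset ℤ) (k a b c : ℤ)
    (ha : ∀ x y : ℤ, x % 9 = 0 → y % 3 = k → (x + 3 * (y - x)) % 9 = a)
    (hb : ∀ x y : ℤ, x % 9 = 3 → y % 3 = k → (x + 3 * (y - x)) % 9 = b)
    (hc : ∀ x y : ℤ, x % 9 = 6 → y % 3 = k → (x + 3 * (y - x)) % 9 = c) :
    N (c3 A 0) (c3 A k) (c3 A 0) ≤ (eE A k).card *
      (min (c9 A 0).card (cE A a).card + min (c9 A 3).card (cE A b).card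
        + min (c9 A 6).card (cE A c).card) + (eO A k).card * (eO A 0).card := by
  rw [N_eq_sum_y, sum_c3_par A _ k]
  refine add_le_add ?_ ?_
  · refine sum_le_card_mul _ _ _ fun y hy => ?_
    have hsub : (c3 A 0).filter (fun x => x + 3 * (y - x) ∈ c3 A 0) ⊆
        ((c9 A 0).filter (fun x => x + 3 * (y - x) ∈ cE A a) ∪
         (c9 A 3).filter (fun x => x + 3 * (y - x) ∈ cE A b)) ∪
         (c9 A 6).filter (fun x => x + 3 * (y - x) ∈ cE A c) := by
      intro x hx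
      simp only [c3, c9, eE, cE, Finset.mem_filter, Finset.mem_union] at hx hy ⊢
      obtain ⟨⟨hxA, hx3⟩, hzA, hz3⟩ := hx
      obtain ⟨hyA, hy3, hy2⟩ := hy
      have h9 : x % 9 = 0 ∨ x % 9 = 3 ∨ x % 9 = 6 := by omega
      have hz2 : (x + 3 * (y - x)) % 2 = 0 := by omega
      rcases h9 with h9 | h9 | h9
      · left; left; exact ⟨⟨hxA, h9⟩, hzA, ha x y h9 hy3, hz2⟩
      · left; right; exact ⟨⟨hxA, h9⟩, hzA, hb x y h9 hy3, hz2⟩
      · right; exact ⟨⟨hxA, h9⟩, hzA, hc x y h9 hy3, hz2⟩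
    refine le_trans (Finset.card_le_card hsub) ?_
    refine le_trans (Finset.card_union_le _ _) (add_le_add (le_trans (Finset.card_union_le _ _)
      (add_le_add ?_ ?_)) ?_)
    · exact le_min (Finset.card_filter_le _ _) (fib_y_le _ _ _)
    · exact le_min (Finset.card_filter_le _ _) (fib_y_le _ _ _)
    · exact le_min (Finset.card_filter_le _ _) (fib_y_le _ _ _)
  · refine sum_le_card_mul _ _ _ fun y hy => fib_y_sub _ _ _ _ fun x hx hz => ?_
    simp only [c3, eO, Finset.mem_filter] at hx hy hz ⊢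
    exact ⟨hz.1, hz.2, by omega⟩

lemma N_OEE_a (A : Finset ℤ) :
    N (c2 A 1) (c2 A 0) (c2 A 0) ≤ (cO A 0).card * ((cE A 0).card + ((eE A 1).card + (eE A 2).card))
      + (cO A 3).card * ((cE A 3).card + ((eE A 1).card + (eE A 2).card))
      + (cO A 6).card * ((cE A 6).card + ((eE A 1).card + (eE A 2).card))
      + (eO A 1).card * (eE A 1).card + (eO A 2).card * (eE A 2).card := by
  have key : ∀ k : ℤ, (k = 0 ∨ k = 3 ∨ k = 6) → ∀ x ∈ cO A k,
      ((c2 A 0).filter (fun y => x + 3 * (y - x) ∈ c2 A 0)).card ≤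
        (cE A k).card + ((eE A 1).card + (eE A 2).card) := by
    intro k hk x hx
    have hsub : (c2 A 0).filter (fun y => x + 3 * (y - x) ∈ c2 A 0) ⊆
        (c2 A 0).filter (fun y => x + 3 * (y - x) ∈ cE A k) ∪ (eE A 1 ∪ eE A 2) := by
      intro y hy
      simp only [c2, cO, eE, cE, Finset.mem_filter, Finset.mem_union] at hx hy ⊢
      obtain ⟨⟨hyA, hy2⟩, hzA, hz2⟩ := hy
      obtain ⟨hxA, hx9, hx2⟩ := hx
      simp only [hyA, hy2, hzA, hz2, true_and, and_true]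
      omega
    refine le_trans (Finset.card_le_card hsub) ?_
    refine le_trans (Finset.card_union_le _ _) (add_le_add (fib_x_le _ _ _)
      (Finset.card_union_le _ _))
  rw [N_eq_sum_x, sum_c2_odd]
  refine add_le_add (add_le_add (add_le_add (add_le_add ?_ ?_) ?_) ?_) ?_
  · exact sum_le_card_mul _ _ _ (key 0 (by omega))
  · exact sum_le_card_mul _ _ _ (key 3 (by omega))
  · exact sum_le_card_mul _ _ _ (key 6 (by omega))
  · refine sum_le_card_mul _ _ _ fun x hx => fib_x_sub _ _ _ _ fun y hy hz => ?_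
    simp only [c2, eO, eE, Finset.mem_filter] at hx hy hz ⊢
    exact ⟨hz.1, by omega, hz.2⟩
  · refine sum_le_card_mul _ _ _ fun x hx => fib_x_sub _ _ _ _ fun y hy hz => ?_
    simp only [c2, eO, eE, Finset.mem_filter] at hx hy hz ⊢
    exact ⟨hz.1, by omega, hz.2⟩

lemma N_OEE_b (A : Finset ℤ) :
    N (c2 A 1) (c2 A 0) (c2 A 0) ≤ (eO A 0).card * (eE A 0).card
      + (eO A 1).card * (eE A 1).card + (eO A 2).card * (eE A 2).card := by
  rw [N_eq_sum_x, sum_c2_odd']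
  refine add_le_add (add_le_add ?_ ?_) ?_
  · refine sum_le_card_mul _ _ _ fun x hx => fib_x_sub _ _ _ _ fun y hy hz => ?_
    simp only [c2, eO, eE, Finset.mem_filter] at hx hy hz ⊢
    exact ⟨hz.1, by omega, hz.2⟩
  · refine sum_le_card_mul _ _ _ fun x hx => fib_x_sub _ _ _ _ fun y hy hz => ?_
    simp only [c2, eO, eE, Finset.mem_filter] at hx hy hz ⊢
    exact ⟨hz.1, by omega, hz.2⟩
  · refine sum_le_card_mul _ _ _ fun x hx => fib_x_sub _ _ _ _ fun y hy hz => ?_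
    simp only [c2, eO, eE, Finset.mem_filter] at hx hy hz ⊢
    exact ⟨hz.1, by omega, hz.2⟩

lemma N_EOO (A : Finset ℤ) :
    N (c2 A 0) (c2 A 1) (c2 A 1) ≤ (c4 A 1).card * (c4 A 3).card + (c4 A 3).card * (c4 A 1).card := by
  rw [N_eq_sum_y, sum_c2_four]
  refine add_le_add ?_ ?_
  · refine sum_le_card_mul _ _ _ fun y hy => fib_y_sub _ _ _ _ fun x hx hz => ?_
    simp only [c2, c4, Finset.mem_filter] at hx hy hz ⊢
    exact ⟨hz.1, by omega⟩
  · refine sum_le_card_mul _ _ _ fun y hy => fib_y_sub _ _ _ _ fun x hx hz => ?_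
    simp only [c2, c4, Finset.mem_filter] at hx hy hz ⊢
    exact ⟨hz.1, by omega⟩


lemma card_eE (A : Finset ℤ) : (eE A 0).card = (cE A 0).card + (cE A 3).card + (cE A 6).card := by
  simp only [eE, cE, Finset.card_filter, ← Finset.sum_add_distrib]
  refine Finset.sum_congr rfl fun x _ => ?_
  split_ifs <;> omega

lemma card_eO (A : Finset ℤ) : (eO A 0).card = (cO A 0).card + (cO A 3).card + (cO A 6).card := by
  simp only [eO, cO, Finset.card_filter, ← Finset.sum_add_distrib]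
  refine Finset.sum_congr rfl fun x _ => ?_
  split_ifs <;> omega

lemma card_c9 (A : Finset ℤ) (k : ℤ) : (c9 A k).card = (cE A k).card + (cO A k).card := by
  simp only [c9, cE, cO, Finset.card_filter, ← Finset.sum_add_distrib]
  refine Finset.sum_congr rfl fun x _ => ?_
  split_ifs <;> omega

lemma card_c3 (A : Finset ℤ) (k : ℤ) : (c3 A k).card = (eE A k).card + (eO A k).card := by
  simp only [c3, eE, eO, Finset.card_filter, ← Finset.sum_add_distrib]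
  refine Finset.sum_congr rfl fun x _ => ?_
  split_ifs <;> omega

lemma card_c3_9 (A : Finset ℤ) (k : ℤ) (hk : k = 0 ∨ k = 1 ∨ k = 2) :
    (c3 A k).card = (c9 A k).card + (c9 A (k+3)).card + (c9 A (k+6)).card := by
  simp only [c3, c9, Finset.card_filter, ← Finset.sum_add_distrib]
  refine Finset.sum_congr rfl fun x _ => ?_
  split_ifs <;> omega

lemma card_rest (A : Finset ℤ) :
    (A.filter (fun x => x % 3 ≠ 0)).card = (c3 A 1).card + (c3 A 2).card := by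
  simp only [c3, Finset.card_filter, ← Finset.sum_add_distrib]
  refine Finset.sum_congr rfl fun x _ => ?_
  split_ifs <;> omega

lemma card_all3 (A : Finset ℤ) : A.card = (c3 A 0).card + (c3 A 1).card + (c3 A 2).card := by
  rw [Finset.card_eq_sum_ones]
  simp only [c3, Finset.card_filter, ← Finset.sum_add_distrib]
  refine Finset.sum_congr rfl fun x _ => ?_
  split_ifs <;> omega

lemma card_even (A : Finset ℤ) :
    (c2 A 0).card = (eE A 0).card + ((eE A 1).card + (eE A 2).card) := by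
  simp only [c2, eE, Finset.card_filter, ← Finset.sum_add_distrib]
  refine Finset.sum_congr rfl fun x _ => ?_
  split_ifs <;> omega

lemma card_odd (A : Finset ℤ) :
    (c2 A 1).card = (eO A 0).card + ((eO A 1).card + (eO A 2).card) := by
  simp only [c2, eO, Finset.card_filter, ← Finset.sum_add_distrib]
  refine Finset.sum_congr rfl fun x _ => ?_
  split_ifs <;> omega

lemma card_odd4 (A : Finset ℤ) : (c2 A 1).card = (c4 A 1).card + (c4 A 3).card := by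
  simp only [c2, c4, Finset.card_filter, ← Finset.sum_add_distrib]
  refine Finset.sum_congr rfl fun x _ => ?_
  split_ifs <;> omega

lemma step (A : Finset ℤ) (h1 : (c3 A 1).card ≤ (c3 A 0).card) (h2 : (c3 A 2).card ≤ (c3 A 0).card)
    (hpar : (eO A 0).card ≤ (eE A 0).card)
    (IH : ∀ B : Finset ℤ, B ⊆ A → B.card < A.card → 12 * T B ≤ 5 * B.card ^ 2)
    (hne3 : 0 < (A.filter (fun x => x % 3 ≠ 0)).card) (hne2 : 0 < (c2 A 1).card) :
    12 * T A ≤ 5 * A.card ^ 2 := by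
  have hP0 : 0 < (c3 A 0).card := by
    rw [card_rest] at hne3
    omega
  have cA := card_all3 A
  have cR := card_rest A
  have cP := card_c3 A 0
  have cQ := card_c3 A 1
  have cS := card_c3 A 2
  have cEv := card_even A
  have cOd := card_odd A
  have IH1 := IH (c3 A 0) (Finset.filter_subset _ _) (by omega)
  have IH2 := IH (A.filter (fun x => x % 3 ≠ 0)) (Finset.filter_subset _ _) (by omega)
  have IH3 := IH (c2 A 0) (Finset.filter_subset _ _) (by omega)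
  have IH4 := IH (c2 A 1) (Finset.filter_subset _ _) (by omega)
  have S3 := T_split3 A
  have S2 := T_split2 A
  have XQ1 := N_xz A 0 1 3 6 0 (by omega) (by omega) (by omega) (by omega)
  have XR1 := N_xz A 0 2 6 0 3 (by omega) (by omega) (by omega) (by omega)
  have YQ := N_xz A 1 0 7 1 4 (by omega) (by omega) (by omega) (by omega)
  have YR := N_xz A 2 0 5 8 2 (by omega) (by omega) (by omega) (by omega)
  have XQ2 := N_al A 1 3 6 0 (by omega) (by omega) (by omega)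
  have XR2 := N_al A 2 6 0 3 (by omega) (by omega) (by omega)
  have Oa := N_OEE_a A
  have Ob := N_OEE_b A
  have Oc := N_EOO A
  have e0 := card_c9 A 0
  have e3 := card_c9 A 3
  have e6 := card_c9 A 6
  have f0 := card_c3_9 A 0 (by omega)
  have f1 := card_c3_9 A 1 (by omega)
  have f2 := card_c3_9 A 2 (by omega)
  have gE := card_eE A
  have gO := card_eO A
  have o4 := card_odd4 A
  norm_num at XQ1 XR1 YQ YR f0 f1 f2
  -- reals
  generalize hg0 : (cE A 0).card = g0 at *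
  generalize hg3 : (cE A 3).card = g3 at *
  generalize hg6 : (cE A 6).card = g6 at *
  generalize ht0 : (cO A 0).card = t0 at *
  generalize ht3 : (cO A 3).card = t3 at *
  generalize ht6 : (cO A 6).card = t6 at *
  generalize hgg : (eE A 0).card = g at *
  generalize htt : (eO A 0).card = t at *
  generalize hq0 : (eE A 1).card = q0 at *
  generalize hq1 : (eO A 1).card = q1 at *
  generalize hr0 : (eE A 2).card = r0 at *
  generalize hr1 : (eO A 2).card = r1 at *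
  generalize hc90 : (c9 A 0).card = p0 at *
  generalize hc93 : (c9 A 3).card = p3 at *
  generalize hc96 : (c9 A 6).card = p6 at *
  generalize hc91 : (c9 A 1).card = m1 at *
  generalize hc94 : (c9 A 4).card = m4 at *
  generalize hc97 : (c9 A 7).card = m7 at *
  generalize hc92 : (c9 A 2).card = k2 at *
  generalize hc95 : (c9 A 5).card = k5 at *
  generalize hc98 : (c9 A 8).card = k8 at *
  generalize h41 : (c4 A 1).card = o1 at *
  generalize h43 : (c4 A 3).card = o3 at *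
  generalize hn : A.card = n at *
  generalize hcP : (c3 A 0).card = P at *
  generalize hcQ : (c3 A 1).card = Q at *
  generalize hcS : (c3 A 2).card = S at *
  generalize hcR : (A.filter (fun x => x % 3 ≠ 0)).card = R at *
  generalize hcE : (c2 A 0).card = E at *
  generalize hcO : (c2 A 1).card = O at *
  generalize hTA : T A = TA at *
  generalize hTP : T (c3 A 0) = TP at *
  generalize hTR : T (A.filter (fun x => x % 3 ≠ 0)) = TR at *
  generalize hTE : T (c2 A 0) = TE at *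
  generalize hTO : T (c2 A 1) = TO at *
  generalize hN1 : N (c3 A 0) (c3 A 1) (c3 A 0) = N1 at *
  generalize hN2 : N (c3 A 0) (c3 A 2) (c3 A 0) = N2 at *
  generalize hN3 : N (c3 A 1) (c3 A 0) (c3 A 1) = N3 at *
  generalize hN4 : N (c3 A 2) (c3 A 0) (c3 A 2) = N4 at *
  generalize hN5 : N (c2 A 1) (c2 A 0) (c2 A 0) = N5 at *
  generalize hN6 : N (c2 A 0) (c2 A 1) (c2 A 1) = N6 at *
  clear hg0 hg3 hg6 ht0 ht3 ht6 hgg htt hq0 hq1 hr0 hr1 hc90 hc93 hc96 hc91 hc94 hc97 hc92 hc95 hc98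
    h41 h43 hn hcP hcQ hcS hcR hcE hcO hTA hTP hTR hTE hTO hN1 hN2 hN3 hN4 hN5 hN6 IH
  subst e0 e3 e6 gE gO
  have key := core ((g0+g3+g6 : ℕ) : ℝ) ((t0+t3+t6 : ℕ) : ℝ) ((t0*g0+t3*g3+t6*g6 : ℕ) : ℝ)
    (max (min ((g0:ℝ)+t0) g3 + min ((g3:ℝ)+t3) g6 + min ((g6:ℝ)+t6) g0)
         (min ((g0:ℝ)+t0) g6 + min ((g3:ℝ)+t3) g0 + min ((g6:ℝ)+t6) g3))
    q0 q1 r0 r1 N1 N2 ((N5 : ℝ) + N6)
    (by have : 0 < g0+g3+g6+(t0+t3+t6) := by omega
        exact_mod_cast this) (by positivity) (by exact_mod_cast hpar)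
    (by positivity) (by positivity) (by positivity) (by positivity)
    (by have : q0 + q1 ≤ g0+g3+g6+(t0+t3+t6) := by omega
        exact_mod_cast this)
    (by have : r0 + r1 ≤ g0+g3+g6+(t0+t3+t6) := by omega
        exact_mod_cast this)
    (by
      push_cast
      apply max_le
      · linarith [min_le_right ((g0:ℝ)+t0) (g3:ℝ), min_le_right ((g3:ℝ)+t3) (g6:ℝ), min_le_right ((g6:ℝ)+t6) (g0:ℝ)]
      · linarith [min_le_right ((g0:ℝ)+t0) (g6:ℝ), min_le_right ((g3:ℝ)+t3) (g0:ℝ), min_le_right ((g6:ℝ)+t6) (g3:ℝ)])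
    (by
      push_cast
      rcases le_total (min ((g0:ℝ)+t0) g3 + min ((g3:ℝ)+t3) g6 + min ((g6:ℝ)+t6) g0)
         (min ((g0:ℝ)+t0) g6 + min ((g3:ℝ)+t3) g0 + min ((g6:ℝ)+t6) g3) with h | h
      · rw [max_eq_right h]
        exact al_bound2 g0 g3 g6 t0 t3 t6 (by positivity) (by positivity) (by positivity)
          (by positivity) (by positivity) (by positivity)
      · rw [max_eq_left h]
        exact al_bound1 g0 g3 g6 t0 t3 t6 (by positivity) (by positivity) (by positivity)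
          (by positivity) (by positivity) (by positivity))
    (by
      have h : (N1 : ℝ) ≤ (g0+t0)*(g3+t3) + (g3+t3)*(g6+t6) + (g6+t6)*(g0+t0) := by exact_mod_cast XQ1
      have := cyc3 ((g0:ℝ)+t0) (g3+t3) (g6+t6)
      push_cast
      nlinarith)
    (by
      have h : (N1 : ℝ) ≤ q0 * (min ((g0:ℝ)+t0) g3 + min ((g3:ℝ)+t3) g6 + min ((g6:ℝ)+t6) g0)
          + q1 * (t0+t3+t6) := by exact_mod_cast XQ2
      push_cast
      refine le_trans h ?_
      have := mul_le_mul_of_nonneg_left (le_max_left (min ((g0:ℝ)+t0) g3 + min ((g3:ℝ)+t3) g6 + min ((g6:ℝ)+t6) g0)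
         (min ((g0:ℝ)+t0) g6 + min ((g3:ℝ)+t3) g0 + min ((g6:ℝ)+t6) g3)) (show (0:ℝ) ≤ q0 by positivity)
      linarith)
    (by
      have h : (N2 : ℝ) ≤ (g0+t0)*(g6+t6) + (g3+t3)*(g0+t0) + (g6+t6)*(g3+t3) := by exact_mod_cast XR1
      have := cyc3 ((g0:ℝ)+t0) (g3+t3) (g6+t6)
      push_cast
      nlinarith)
    (by
      have h : (N2 : ℝ) ≤ r0 * (min ((g0:ℝ)+t0) g6 + min ((g3:ℝ)+t3) g0 + min ((g6:ℝ)+t6) g3)
          + r1 * (t0+t3+t6) := by exact_mod_cast XR2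
      push_cast
      refine le_trans h ?_
      have := mul_le_mul_of_nonneg_left (le_max_right (min ((g0:ℝ)+t0) g3 + min ((g3:ℝ)+t3) g6 + min ((g6:ℝ)+t6) g0)
         (min ((g0:ℝ)+t0) g6 + min ((g3:ℝ)+t3) g0 + min ((g6:ℝ)+t6) g3)) (show (0:ℝ) ≤ r0 by positivity)
      linarith)
    (by
      have h : (N5 : ℝ) ≤ t0*(g0+(q0+r0)) + t3*(g3+(q0+r0)) + t6*(g6+(q0+r0)) + q1*q0 + r1*r0 := by
        exact_mod_cast Oa
      have h' : (N6 : ℝ) ≤ o1*o3+o3*o1 := by exact_mod_cast Oc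
      have h'' : (o1:ℝ) + o3 = t0+t3+t6+(q1+r1) := by
        have : o1 + o3 = t0+t3+t6+(q1+r1) := by omega
        exact_mod_cast this
      push_cast
      rw [← h'']
      nlinarith [sq_nonneg ((o1:ℝ)-o3)])
    (by
      have h : (N5 : ℝ) ≤ (t0+t3+t6)*(g0+g3+g6) + q1*q0 + r1*r0 := by
        exact_mod_cast Ob
      have h' : (N6 : ℝ) ≤ o1*o3+o3*o1 := by exact_mod_cast Oc
      have h'' : (o1:ℝ) + o3 = t0+t3+t6+(q1+r1) := by
        have : o1 + o3 = t0+t3+t6+(q1+r1) := by omega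
        exact_mod_cast this
      push_cast
      rw [← h'']
      nlinarith [sq_nonneg ((o1:ℝ)-o3)])
  have hfinal : (12 : ℝ) * TA ≤ 5 * (n:ℝ)^2 := by
    rcases key with h | h
    · have i1 : (12 : ℝ) * TP ≤ 5 * (P:ℝ)^2 := by exact_mod_cast IH1
      have i2 : (12 : ℝ) * TR ≤ 5 * (R:ℝ)^2 := by exact_mod_cast IH2
      have i3 : (TA : ℝ) ≤ TP + TR + N1 + N2 + N3 + N4 := by exact_mod_cast S3
      have i4 : (N3 : ℝ) ≤ m1*m7 + m4*m1 + m7*m4 := by exact_mod_cast YQ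
      have i5 : (N4 : ℝ) ≤ k2*k5 + k5*k8 + k8*k2 := by exact_mod_cast YR
      have i6 := cyc3 (m1:ℝ) m4 m7
      have i7 := cyc3 (k2:ℝ) k5 k8
      have j1 : (m1:ℝ)+m4+m7 = q0+q1 := by
        have : m1+m4+m7 = q0+q1 := by omega
        exact_mod_cast this
      have j2 : (k2:ℝ)+k5+k8 = r0+r1 := by
        have : k2+k5+k8 = r0+r1 := by omega
        exact_mod_cast this
      have j3 : (P:ℝ) = ((g0+g3+g6 : ℕ) : ℝ) + ((t0+t3+t6 : ℕ) : ℝ) := by exact_mod_cast cP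
      have j4 : (R:ℝ) = ((q0:ℝ)+q1) + (r0+r1) := by
        have : R = (q0+q1)+(r0+r1) := by omega
        exact_mod_cast this
      have j5 : (n:ℝ) = P + R := by
        have : n = P + R := by omega
        exact_mod_cast this
      rw [j1] at i6
      rw [j2] at i7
      rw [← j3, ← j4] at h
      rw [j5]
      nlinarith
    · have i1 : (12 : ℝ) * TE ≤ 5 * (E:ℝ)^2 := by exact_mod_cast IH3
      have i2 : (12 : ℝ) * TO ≤ 5 * (O:ℝ)^2 := by exact_mod_cast IH4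
      have i3 : (TA : ℝ) ≤ TE + TO + N5 + N6 := by exact_mod_cast S2
      have j3 : (E:ℝ) = ((g0+g3+g6 : ℕ) : ℝ) + ((q0:ℝ)+r0) := by exact_mod_cast cEv
      have j4 : (O:ℝ) = ((t0+t3+t6 : ℕ) : ℝ) + ((q1:ℝ)+r1) := by exact_mod_cast cOd
      have j5 : (n:ℝ) = E + O := by
        have : n = E + O := by omega
        exact_mod_cast this
      rw [← j3, ← j4] at h
      rw [j5]
      nlinarith
  exact_mod_cast hfinal

lemma T_translate (A : Finset ℤ) (c : ℤ) : T A ≤ T (A.image (· + c)) := by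
  unfold T
  apply Finset.card_le_card_of_injOn (fun p : ℤ × ℤ => (p.1 + c, p.2 + c))
  · rintro ⟨x, y⟩ h
    simp only [Finset.coe_filter, Finset.mem_product, Set.mem_ofPred_eq, Finset.mem_image] at h ⊢
    obtain ⟨⟨hx, hy⟩, hne, hz⟩ := h
    refine ⟨⟨⟨x, hx, rfl⟩, ⟨y, hy, rfl⟩⟩, by omega, ⟨x + 3 * (y - x), hz, by ring⟩⟩
  · rintro ⟨x, y⟩ _ ⟨x', y'⟩ _ h
    simp only [Prod.mk.injEq] at h ⊢
    omega

lemma T_div (A : Finset ℤ) (k : ℤ) (hk : 0 < k) (h : ∀ x ∈ A, x % k = 0) :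
    T A ≤ T (A.image (· / k)) := by
  unfold T
  apply Finset.card_le_card_of_injOn (fun p : ℤ × ℤ => (p.1 / k, p.2 / k))
  · rintro ⟨x, y⟩ hh
    simp only [Finset.coe_filter, Finset.mem_product, Set.mem_ofPred_eq, Finset.mem_image] at hh ⊢
    obtain ⟨⟨hx, hy⟩, hne, hz⟩ := hh
    obtain ⟨x', hx'⟩ := Int.dvd_of_emod_eq_zero (h x hx)
    obtain ⟨y', hy'⟩ := Int.dvd_of_emod_eq_zero (h y hy)
    subst hx' hy'
    have e1 : k * x' / k = x' := Int.mul_ediv_cancel_left _ (ne_of_gt hk)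
    have e2 : k * y' / k = y' := Int.mul_ediv_cancel_left _ (ne_of_gt hk)
    refine ⟨⟨⟨k * x', hx, rfl⟩, ⟨k * y', hy, rfl⟩⟩, ?_, ⟨_, hz, ?_⟩⟩
    · rw [e1, e2]; rintro rfl; exact hne rfl
    · have e3 : k * x' + 3 * (k * y' - k * x') = k * (x' + 3 * (y' - x')) := by ring
      rw [e1, e2, e3, Int.mul_ediv_cancel_left _ (ne_of_gt hk)]
  · rintro ⟨x, y⟩ hh ⟨x', y'⟩ hh' heq
    simp only [Finset.coe_filter, Finset.mem_product, Set.mem_ofPred_eq] at hh hh'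
    simp only [Prod.mk.injEq] at heq ⊢
    have a1 := Int.mul_ediv_cancel' (Int.dvd_of_emod_eq_zero (h x hh.1.1))
    have a2 := Int.mul_ediv_cancel' (Int.dvd_of_emod_eq_zero (h y hh.1.2))
    have a3 := Int.mul_ediv_cancel' (Int.dvd_of_emod_eq_zero (h x' hh'.1.1))
    have a4 := Int.mul_ediv_cancel' (Int.dvd_of_emod_eq_zero (h y' hh'.1.2))
    rw [← a1, ← a2, ← a3, ← a4, heq.1, heq.2]
    exact ⟨rfl, rfl⟩

lemma T_small (A : Finset ℤ) (h : A.card ≤ 1) : T A = 0 := by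
  unfold T
  rw [Finset.card_eq_zero, Finset.filter_eq_empty_iff]
  rintro ⟨x, y⟩ hxy hc
  rw [Finset.mem_product] at hxy
  exact hc.1 (Finset.card_le_one.mp h x hxy.1 y hxy.2)

lemma sh3 (A : Finset ℤ) (c k i : ℤ) (h : ∀ x : ℤ, (x + c) % 3 = k ↔ x % 3 = i) :
    (c3 (A.image (· + c)) k).card = (A.filter (fun x => x % 3 = i)).card := by
  rw [c3, Finset.filter_image, Finset.card_image_of_injective _ (add_left_injective c)]
  congr 1
  ext x
  simp only [Finset.mem_filter]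
  rw [h x]

lemma shE (A : Finset ℤ) (c i : ℤ) (h : ∀ x : ℤ, ((x + c) % 3 = 0 ∧ (x + c) % 2 = 0) ↔ x % 6 = i) :
    (eE (A.image (· + c)) 0).card = (A.filter (fun x => x % 6 = i)).card := by
  rw [eE, Finset.filter_image, Finset.card_image_of_injective _ (add_left_injective c)]
  congr 1
  ext x
  simp only [Finset.mem_filter]
  rw [h x]

lemma shO (A : Finset ℤ) (c i : ℤ) (h : ∀ x : ℤ, ((x + c) % 3 = 0 ∧ (x + c) % 2 = 1) ↔ x % 6 = i) :
    (eO (A.image (· + c)) 0).card = (A.filter (fun x => x % 6 = i)).card := by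
  rw [eO, Finset.filter_image, Finset.card_image_of_injective _ (add_left_injective c)]
  congr 1
  ext x
  simp only [Finset.mem_filter]
  rw [h x]

lemma exists_shift (A : Finset ℤ) : ∃ c : ℤ,
    (c3 (A.image (· + c)) 1).card ≤ (c3 (A.image (· + c)) 0).card ∧
    (c3 (A.image (· + c)) 2).card ≤ (c3 (A.image (· + c)) 0).card ∧
    (eO (A.image (· + c)) 0).card ≤ (eE (A.image (· + c)) 0).card := by
  set F := fun i : ℤ => (A.filter (fun x => x % 3 = i)).card with hF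
  set G := fun i : ℤ => (A.filter (fun x => x % 6 = i)).card with hG
  have hmax : (F 1 ≤ F 0 ∧ F 2 ≤ F 0) ∨ (F 0 ≤ F 1 ∧ F 2 ≤ F 1) ∨ (F 0 ≤ F 2 ∧ F 1 ≤ F 2) := by
    omega
  rcases hmax with ⟨h1, h2⟩ | ⟨h1, h2⟩ | ⟨h1, h2⟩
  · rcases le_total (G 3) (G 0) with h | h
    · refine ⟨0, ?_, ?_, ?_⟩
      · rw [sh3 A 0 1 1 (fun x => by omega), sh3 A 0 0 0 (fun x => by omega)]; exact h1
      · rw [sh3 A 0 2 2 (fun x => by omega), sh3 A 0 0 0 (fun x => by omega)]; exact h2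
      · rw [shO A 0 3 (fun x => by omega), shE A 0 0 (fun x => by omega)]; exact h
    · refine ⟨3, ?_, ?_, ?_⟩
      · rw [sh3 A 3 1 1 (fun x => by omega), sh3 A 3 0 0 (fun x => by omega)]; exact h1
      · rw [sh3 A 3 2 2 (fun x => by omega), sh3 A 3 0 0 (fun x => by omega)]; exact h2
      · rw [shO A 3 0 (fun x => by omega), shE A 3 3 (fun x => by omega)]; exact h
  · rcases le_total (G 1) (G 4) with h | h
    · refine ⟨2, ?_, ?_, ?_⟩
      · rw [sh3 A 2 1 2 (fun x => by omega), sh3 A 2 0 1 (fun x => by omega)]; exact h2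
      · rw [sh3 A 2 2 0 (fun x => by omega), sh3 A 2 0 1 (fun x => by omega)]; exact h1
      · rw [shO A 2 1 (fun x => by omega), shE A 2 4 (fun x => by omega)]; exact h
    · refine ⟨5, ?_, ?_, ?_⟩
      · rw [sh3 A 5 1 2 (fun x => by omega), sh3 A 5 0 1 (fun x => by omega)]; exact h2
      · rw [sh3 A 5 2 0 (fun x => by omega), sh3 A 5 0 1 (fun x => by omega)]; exact h1
      · rw [shO A 5 4 (fun x => by omega), shE A 5 1 (fun x => by omega)]; exact h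
  · rcases le_total (G 5) (G 2) with h | h
    · refine ⟨4, ?_, ?_, ?_⟩
      · rw [sh3 A 4 1 0 (fun x => by omega), sh3 A 4 0 2 (fun x => by omega)]; exact h1
      · rw [sh3 A 4 2 1 (fun x => by omega), sh3 A 4 0 2 (fun x => by omega)]; exact h2
      · rw [shO A 4 5 (fun x => by omega), shE A 4 2 (fun x => by omega)]; exact h
    · refine ⟨1, ?_, ?_, ?_⟩
      · rw [sh3 A 1 1 0 (fun x => by omega), sh3 A 1 0 2 (fun x => by omega)]; exact h1
      · rw [sh3 A 1 2 1 (fun x => by omega), sh3 A 1 0 2 (fun x => by omega)]; exact h2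
      · rw [shO A 1 2 (fun x => by omega), shE A 1 5 (fun x => by omega)]; exact h

lemma two_le_len (A : Finset ℤ) (a : ℤ) (L : ℕ) (k : ℤ) (hk : k = 2 ∨ k = 3)
    (hA : A ⊆ Finset.Icc a (a + L)) (h : ∀ x ∈ A, x % k = 0) (hc : 1 < A.card) : 2 ≤ L := by
  obtain ⟨x, hx, y, hy, hne⟩ := Finset.one_lt_card.mp hc
  have h1 := hA hx
  have h2 := hA hy
  have h3 := h x hx
  have h4 := h y hy
  rw [Finset.mem_Icc] at h1 h2
  rcases hk with rfl | rfl <;> omega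

theorem main_bound : ∀ m : ℕ, ∀ (A : Finset ℤ) (a : ℤ) (L : ℕ),
    A ⊆ Finset.Icc a (a + L) → A.card + L ≤ m → 12 * T A ≤ 5 * A.card ^ 2 := by
  intro m
  induction m with
  | zero =>
    intro A a L _ hm
    rw [T_small A (by omega)]
    omega
  | succ m IH =>
    intro A a L hA hm
    by_cases hc : A.card ≤ 1
    · rw [T_small A hc]; omega
    push Not at hc
    obtain ⟨c, hs1, hs2, hs3⟩ := exists_shift A
    have hT := T_translate A c
    have hcard : (A.image (· + c)).card = A.card :=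
      Finset.card_image_of_injective _ (add_left_injective c)
    have hA' : A.image (· + c) ⊆ Finset.Icc (a + c) (a + c + L) := by
      intro x hx
      rw [Finset.mem_image] at hx
      obtain ⟨y, hy, rfl⟩ := hx
      have := hA hy
      rw [Finset.mem_Icc] at this ⊢
      omega
    rw [← hcard] at hm hc ⊢
    refine le_trans (Nat.mul_le_mul_left 12 hT) ?_
    generalize A.image (· + c) = B at *
    generalize a + c = b at *
    -- reduction by division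
    have hdiv : ∀ k : ℤ, (k = 2 ∨ k = 3) → (∀ x ∈ B, x % k = 0) → 12 * T B ≤ 5 * B.card ^ 2 := by
      intro k hk hB
      have hk0 : 0 < k := by omega
      have hL := two_le_len B b L k hk hA' hB hc
      have h1 := T_div B k hk0 hB
      have h2 : (B.image (· / k)).card ≤ B.card := Finset.card_image_le
      have h3 : 12 * T (B.image (· / k)) ≤ 5 * (B.image (· / k)).card ^ 2 := by
        apply IH (B.image (· / k)) (b / k) (L - 1)
        · intro x hx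
          rw [Finset.mem_image] at hx
          obtain ⟨y, hy, rfl⟩ := hx
          have hy1 := hA' hy
          have hy2 := hB y hy
          rw [Finset.mem_Icc] at hy1 ⊢
          rcases hk with rfl | rfl <;> omega
        · omega
      have h4 : (B.image (· / k)).card ^ 2 ≤ B.card ^ 2 := Nat.pow_le_pow_left h2 2
      omega
    by_cases hd3 : (B.filter (fun x => x % 3 ≠ 0)).card = 0
    · apply hdiv 3 (Or.inr rfl)
      intro x hx
      rw [Finset.card_eq_zero, Finset.filter_eq_empty_iff] at hd3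
      have := hd3 hx
      push Not at this
      exact this
    by_cases hd2 : (c2 B 1).card = 0
    · apply hdiv 2 (Or.inl rfl)
      intro x hx
      rw [c2, Finset.card_eq_zero, Finset.filter_eq_empty_iff] at hd2
      have := hd2 hx
      omega
    apply step B hs1 hs2 hs3 _ (Nat.pos_of_ne_zero hd3) (Nat.pos_of_ne_zero hd2)
    intro C hC hCc
    exact IH C b L (hC.trans hA') (by omega)

theorem bound (A : Finset ℤ) : 12 * T A ≤ 5 * A.card ^ 2 := by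
  rcases A.eq_empty_or_nonempty with rfl | hne
  · rw [T_small ∅ (by simp)]; simp
  · apply main_bound (A.card + (A.max' hne - A.min' hne).toNat) A (A.min' hne)
      (A.max' hne - A.min' hne).toNat
    · intro x hx
      rw [Finset.mem_Icc]
      have h1 := A.min'_le x hx
      have h2 := A.le_max' x hx
      omega
    · exact le_rfl


lemma gamma_le (c : ℝ) (hc : 0 ≤ c)
    (h : ∀ A : Finset ℤ, (((A ×ˢ A).filter
      (fun (x, y) ↦ x ≠ y ∧ x + 3 * (y - x) ∈ A)).card : ℝ) ≤ c * (A.card : ℝ) ^ 2) :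
    gamma ≤ c := by
  have hb : ∀ n : ℕ, (max013AffineTranslates n : ℝ) / (n : ℝ) ^ 2 ≤ c := by
    intro n
    have hM : (max013AffineTranslates n : ℝ) ≤ c * (n : ℝ) ^ 2 := by
      have hne : {k : ℕ | ∃ A : Finset ℤ, A.card = n ∧
          k = ((A ×ˢ A).filter (fun (x, y) ↦ x ≠ y ∧ x + 3 * (y - x) ∈ A)).card}.Nonempty := by
        obtain ⟨A, _, hA⟩ := Set.infinite_univ.exists_subset_card_eq (α := ℤ) n
        exact ⟨_, A, hA, rfl⟩
      have hbdd : BddAbove {k : ℕ | ∃ A : Finset ℤ, A.card = n ∧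
          k = ((A ×ˢ A).filter (fun (x, y) ↦ x ≠ y ∧ x + 3 * (y - x) ∈ A)).card} := by
        refine ⟨n * n, ?_⟩
        rintro k ⟨A, hA, rfl⟩
        refine le_trans (Finset.card_filter_le _ _) ?_
        rw [Finset.card_product, hA]
      obtain ⟨A, hA, hk⟩ := Nat.sSup_mem hne hbdd
      have := h A
      rw [hA, ← hk] at this
      exact this
    rcases Nat.eq_zero_or_pos n with rfl | hn
    · simpa using hc
    · have hn2 : (0 : ℝ) < (n : ℝ) ^ 2 := by positivity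
      rw [div_le_iff₀ hn2]
      exact hM
  unfold gamma
  refine Filter.limsup_le_of_le ?_ (Filter.Eventually.of_forall hb)
  refine Filter.IsBoundedUnder.isCoboundedUnder_le ?_
  exact ⟨0, Filter.eventually_map.mpr (Filter.Eventually.of_forall fun n => by positivity)⟩

/-- Every finite set `A` of integers has at most `(5/12)|A|^2` ordered pairs of distinct elements
`x, y` with `x + 3 (y - x) ∈ A`, and hence the limit constant is at most `5/12`. -/
theorem result :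
    (∀ A : Finset ℤ, (((A ×ˢ A).filter
      (fun (x, y) ↦ x ≠ y ∧ x + 3 * (y - x) ∈ A)).card : ℝ) ≤ 5 / 12 * (A.card : ℝ) ^ 2) ∧
    gamma ≤ 5 / 12 := by
  have h : ∀ A : Finset ℤ, (((A ×ˢ A).filter
      (fun (x, y) ↦ x ≠ y ∧ x + 3 * (y - x) ∈ A)).card : ℝ) ≤ 5 / 12 * (A.card : ℝ) ^ 2 := by
    intro A
    have h1 : 12 * ((A ×ˢ A).filter
      (fun (x, y) ↦ x ≠ y ∧ x + 3 * (y - x) ∈ A)).card ≤ 5 * A.card ^ 2 := bound A
    have h2 : (12 : ℝ) * (((A ×ˢ A).filter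
      (fun (x, y) ↦ x ≠ y ∧ x + 3 * (y - x) ∈ A)).card : ℝ) ≤ 5 * (A.card : ℝ) ^ 2 := by
      exact_mod_cast h1
    linarith
  exact ⟨h, gamma_le _ (by norm_num) h⟩

end Pool.Agent.Results.MP_4074ca_co.UpperBoundFiveTwelfths
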